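import Pool.Agent.PGo.Fin

/-!
# MP_ef8e68_co: all large generalized Petersen graphs are graceful

There is a constant `n0` such that for all `n ≥ n0` and all `k` with `1 ≤ k < n / 2` the
generalized Petersen graph `P(n,k)` is graceful.
-/

namespace Pool.Agent.Results.MP_ef8e68_co.AllLarge

open Pool.Agent.Helper20.Graceful

theorem result :
    ∃ n0 : ℕ, ∀ n k : ℕ, n0 ≤ n → 1 ≤ k → 2 * k < n → IsGraceful (genPetersen n k) :=
  Pool.Agent.PGo.all_large

end Pool.Agent.Results.MP_ef8e68_co.AllLarge
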