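import Pool.Agent.Helper41.GracefulD
import Pool.Agent.Helper41.GracefulE
import Pool.Agent.Helper41.GracefulF
import Pool.Agent.Helper41.GracefulS

namespace Pool.Agent.Results.MP_ef8e68_co.FifthRange

open Pool.Agent.Helper20.Graceful Pool.Agent.Helper41.Graceful

/-- If `4 ∣ n`, `k ≡ 1 (mod 4)` and `5 k < n` then the generalized Petersen graph `P(n,k)` is
graceful. -/
theorem result (n k : ℕ) (hn : 4 ∣ n) (hk : k % 4 = 1) (hkn : 5 * k < n) :
    IsGraceful (genPetersen n k) := by
  obtain ⟨N, rfl⟩ := hn
  obtain ⟨m, rfl⟩ : ∃ m, k = 4 * m + 1 := ⟨k / 4, by omega⟩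
  rcases m with _ | _ | m
  · exact gracefulF N 0 (by omega)
  · by_cases h7 : N = 7
    · subst h7
      exact graceful28_5
    · by_cases h8 : N = 8
      · subst h8
        exact graceful32_5
      · exact gracefulE N 0 (by omega)
  · exact gracefulD N (m + 2) (by omega) (by omega)

end Pool.Agent.Results.MP_ef8e68_co.FifthRange
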