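import Pool.Agent.Helper20.GracefulA
import Pool.Agent.Helper20.GracefulC

namespace Pool.Agent.Results.MP_ef8e68_co.QuarterRange

open Pool.Agent.Helper20.Graceful

/-- If `4 ∣ n`, `k ≡ 3 (mod 4)` and `4 k ≤ n` then the generalized Petersen graph `P(n,k)` is
graceful. -/
theorem result (n k : ℕ) (h0 : 0 < n) (hn : 4 ∣ n) (hk : k % 4 = 3) (hkn : 4 * k ≤ n) :
    IsGraceful (genPetersen n k) := by
  obtain ⟨N, rfl⟩ := hn
  obtain ⟨m, rfl⟩ : ∃ m, k = 4 * m + 3 := ⟨k / 4, by omega⟩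
  rcases Nat.eq_zero_or_pos m with rfl | hm
  · exact gracefulC N 0 (by omega)
  · exact gracefulA N m hm (by omega)

end Pool.Agent.Results.MP_ef8e68_co.QuarterRange
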